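import Pool.Agent.D0H36.LW.Stm3

set_option autoImplicit false

/-! Laws of large characters, module SM2: the subgroup of the periods. -/

namespace Pool.Agent.D0H85.LW

open Polynomial Pool.Agent.H207R2.BL Pool.Agent.D0H36.BL Pool.Agent.D0H36.LW
open Pool.Agent.R814.BL (Cl)

theorem flat_zero (f : ℝ[X] → Multiplicative ℝ) : Flat f 0 0 := by
  intro n _ T
  simp

theorem flat_add (f : ℝ[X] → Multiplicative ℝ) {g g' C C' : ℝ} (h : Flat f g C)
    (h' : Flat f g' C') : Flat f (g + g') (C + C') := by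
  intro n hn T
  have h1 := h n hn T
  have h2 := h' n hn {y | y + g ∈ T}
  have e : (fun G : SimpleGraph (Fin n) => (f (chr G)).toAdd + g' ∈ {y : ℝ | y + g ∈ T}) =
      fun G => (f (chr G)).toAdd + (g + g') ∈ T := by
    funext G
    have : (f (chr G)).toAdd + g' + g = (f (chr G)).toAdd + (g + g') := by ring
    change ((f (chr G)).toAdd + g' + g ∈ T) = _
    rw [this]
  have e2 : (fun G : SimpleGraph (Fin n) => (f (chr G)).toAdd ∈ {y : ℝ | y + g ∈ T}) =
      fun G => (f (chr G)).toAdd + g ∈ T := rfl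
  rw [e, e2] at h2
  calc _ ≤ |share Cl n (fun G => (f (chr G)).toAdd ∈ T) - share Cl n (fun G => (f (chr G)).toAdd + g ∈ T)| +
        |share Cl n (fun G => (f (chr G)).toAdd + g ∈ T) -
          share Cl n (fun G => (f (chr G)).toAdd + (g + g') ∈ T)| := abs_sub_le _ _ _
    _ ≤ C / Real.sqrt n + C' / Real.sqrt n := add_le_add h1 h2
    _ = (C + C') / Real.sqrt n := by ring

theorem flat_neg (f : ℝ[X] → Multiplicative ℝ) {g C : ℝ} (h : Flat f g C) : Flat f (-g) C := by
  intro n hn T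
  have h2 := h n hn {y | y - g ∈ T}
  have e : (fun G : SimpleGraph (Fin n) => (f (chr G)).toAdd + g ∈ {y : ℝ | y - g ∈ T}) =
      fun G => (f (chr G)).toAdd ∈ T := by
    funext G
    have : (f (chr G)).toAdd + g - g = (f (chr G)).toAdd := by ring
    change ((f (chr G)).toAdd + g - g ∈ T) = _
    rw [this]
  have e2 : (fun G : SimpleGraph (Fin n) => (f (chr G)).toAdd ∈ {y : ℝ | y - g ∈ T}) =
      fun G => (f (chr G)).toAdd + -g ∈ T := by
    funext G
    have : (f (chr G)).toAdd - g = (f (chr G)).toAdd + -g := by ring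
    change ((f (chr G)).toAdd - g ∈ T) = _
    rw [this]
  rw [e, e2, abs_sub_comm] at h2
  exact h2

/-- the subgroup of the periods -/
def per (f : ℝ[X] → Multiplicative ℝ) : AddSubgroup ℝ where
  carrier := {g | ∃ C : ℝ, Flat f g C}
  zero_mem' := ⟨0, flat_zero f⟩
  add_mem' := by
    rintro a b ⟨C, h⟩ ⟨C', h'⟩
    exact ⟨C + C', flat_add f h h'⟩
  neg_mem' := by
    rintro a ⟨C, h⟩
    exact ⟨C, flat_neg f h⟩

theorem t_SM2 : S_TRIV → S_SM1 → S_SM2 := by
  intro hT h1 f hf hX hX1 V _ G hG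
  let φ : ℝ[X] → Multiplicative (ℝ ⧸ per f) := fun p =>
    Multiplicative.ofAdd (QuotientAddGroup.mk ((f p).toAdd) : ℝ ⧸ per f)
  have hφ1 : ∀ p, f p = 1 → φ p = 1 := by
    intro p hp
    change Multiplicative.ofAdd (QuotientAddGroup.mk ((f p).toAdd) : ℝ ⧸ per f) = 1
    rw [hp]
    rfl
  have hmul : IsMul φ := by
    obtain ⟨S, a1, a2, a3, a4, a5⟩ := hf
    refine ⟨S, a1, a2, a3, a4, fun p hp q hq => ?_⟩
    change Multiplicative.ofAdd (QuotientAddGroup.mk ((f (p * q)).toAdd) : ℝ ⧸ per f) = _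
    rw [a5 p hp q hq]
    rfl
  have htriv : Triv φ := by
    intro h A B hA hB tA tB
    obtain ⟨C, hC⟩ := h1 f hf h A B hA hB tA tB
    change Multiplicative.ofAdd (QuotientAddGroup.mk ((f (chr A)).toAdd) : ℝ ⧸ per f) =
      Multiplicative.ofAdd (QuotientAddGroup.mk ((f (chr B)).toAdd) : ℝ ⧸ per f)
    congr 1
    rw [QuotientAddGroup.eq]
    refine ⟨C, ?_⟩
    have e : -(f (chr A)).toAdd + (f (chr B)).toAdd = (f (chr B)).toAdd - (f (chr A)).toAdd := by ring
    rw [e]
    exact hC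
  obtain ⟨c, d, -, -, -, h5⟩ := hT _ φ hmul htriv V G hG
  rw [hφ1 _ hX, hφ1 _ hX1, one_pow, one_pow, one_mul] at h5
  have h6 : (QuotientAddGroup.mk ((f (chr G)).toAdd) : ℝ ⧸ per f) = 0 := by
    have := congrArg Multiplicative.toAdd h5
    exact this
  rw [QuotientAddGroup.eq_zero_iff] at h6
  exact h6

end Pool.Agent.D0H85.LW
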